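import Pool.Agent.Helper36_RF.Ex

/-!
# Positivity of the curvature operator of the second kind in the local model (helper85)
-/

noncomputable section

open scoped ContDiff Topology RealInnerProductSpace Matrix
set_option maxSynthPendingDepth 3
open Set

namespace Pool.Agent.RF.H85

section Mat

set_option linter.unusedSectionVars false

variable {κ : Type} [Fintype κ] [DecidableEq κ]

theorem sum_mat (a b φ : Matrix κ κ ℝ) (hφ : φ.IsSymm) :
    ∑ i, ∑ j, ∑ k, ∑ l, a i l * b k j * φ k l * φ i j = (a * φ * b * φ).trace := by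
  simp only [Matrix.trace, Matrix.diag_apply, Matrix.mul_apply, Finset.sum_mul]
  refine Finset.sum_congr rfl fun i _ => Finset.sum_congr rfl fun j _ =>
    Finset.sum_congr rfl fun k _ => Finset.sum_congr rfl fun l _ => ?_
  rw [hφ.apply i j, hφ.apply k l]
  ring

theorem tr2 (a φ : Matrix κ κ ℝ) (hφ : φ.IsSymm) : (a * φ).trace = ∑ i, ∑ j, a i j * φ i j := by
  simp only [Matrix.trace, Matrix.diag_apply, Matrix.mul_apply]
  refine Finset.sum_congr rfl fun i _ => Finset.sum_congr rfl fun j _ => ?_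
  rw [hφ.apply i j]

theorem sum_mat2 (a b φ : Matrix κ κ ℝ) (hφ : φ.IsSymm) :
    ∑ i, ∑ j, ∑ k, ∑ l, a i j * b k l * φ k l * φ i j = (a * φ).trace * (b * φ).trace := by
  rw [tr2 a φ hφ, tr2 b φ hφ, Finset.sum_mul]
  refine Finset.sum_congr rfl fun i _ => ?_
  rw [Finset.sum_mul]
  refine Finset.sum_congr rfl fun j _ => ?_
  rw [Finset.mul_sum]
  refine Finset.sum_congr rfl fun k _ => ?_
  rw [Finset.mul_sum]
  refine Finset.sum_congr rfl fun l _ => ?_
  ring

theorem frob_eq (X : Matrix κ κ ℝ) : (X * Xᵀ).trace = ∑ i, ∑ j, X i j ^ 2 := by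
  simp only [Matrix.trace, Matrix.diag_apply, Matrix.mul_apply, Matrix.transpose_apply, sq]

theorem frob_nonneg (X : Matrix κ κ ℝ) : 0 ≤ (X * Xᵀ).trace := by
  rw [frob_eq]; positivity

theorem frob_pos {X : Matrix κ κ ℝ} (h : X ≠ 0) : 0 < (X * Xᵀ).trace := by
  rcases (frob_nonneg X).lt_or_eq with h1 | h1
  · exact h1
  exfalso
  apply h
  rw [frob_eq] at h1
  ext i j
  have h2 := (Finset.sum_eq_zero_iff_of_nonneg (fun i _ => by positivity)).1 h1.symm i
    (Finset.mem_univ i)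
  have h3 := (Finset.sum_eq_zero_iff_of_nonneg (fun j _ => by positivity)).1 h2 j
    (Finset.mem_univ j)
  simpa using h3

/-- symmetric idempotent -/
structure Proj (P : Matrix κ κ ℝ) : Prop where
  symm : Pᵀ = P
  idem : P * P = P

theorem cross_nonneg {P Q φ : Matrix κ κ ℝ} (hP : Proj P) (hQ : Proj Q) (hφ : φᵀ = φ) :
    0 ≤ (P * φ * Q * φ).trace := by
  have h := frob_nonneg (P * φ * Q)
  have e : P * φ * Q * (P * φ * Q)ᵀ = P * φ * Q * φ * P := by
    rw [Matrix.transpose_mul, Matrix.transpose_mul, hP.symm, hQ.symm, hφ]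
    calc P * φ * Q * (Q * (φ * P)) = P * φ * (Q * Q) * φ * P := by
          simp only [Matrix.mul_assoc]
      _ = _ := by rw [hQ.idem]
  rw [e, Matrix.trace_mul_comm] at h
  have e2 : P * (P * φ * Q * φ) = P * φ * Q * φ := by
    simp only [← Matrix.mul_assoc]; rw [hP.idem]
  rwa [e2] at h

theorem cs {P φ : Matrix κ κ ℝ} (hP : Proj P) (hφ : φᵀ = φ) {r : ℝ} (hr : 0 < r)
    (ht : P.trace = r) : (P * φ).trace ^ 2 / r ≤ (P * φ * P * φ).trace := by
  set t := (P * φ).trace with htt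
  set c := t / r with hc
  have h := frob_nonneg (P * φ * P - c • P)
  have e : (P * φ * P - c • P) * (P * φ * P - c • P)ᵀ
      = P * φ * P * φ * P - (2 * c) • (P * φ * P) + (c ^ 2) • P := by
    have e1 : (P * φ * P - c • P)ᵀ = P * φ * P - c • P := by
      rw [Matrix.transpose_sub, Matrix.transpose_smul, Matrix.transpose_mul, Matrix.transpose_mul,
        hP.symm, hφ, Matrix.mul_assoc]
    rw [e1, Matrix.sub_mul, Matrix.mul_sub, Matrix.mul_sub]
    simp only [Matrix.mul_smul, Matrix.smul_mul]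
    have e2 : P * φ * P * (P * φ * P) = P * φ * P * φ * P := by
      calc P * φ * P * (P * φ * P) = P * φ * (P * P) * φ * P := by simp only [Matrix.mul_assoc]
        _ = _ := by rw [hP.idem]
    have e3 : P * φ * P * P = P * φ * P := by rw [Matrix.mul_assoc, hP.idem]
    have e4 : P * (P * φ * P) = P * φ * P := by
      simp only [← Matrix.mul_assoc]; rw [hP.idem]
    rw [e2, e3, e4, hP.idem]
    module
  have t1 : (P * φ * P * φ * P).trace = (P * φ * P * φ).trace := by
    rw [Matrix.trace_mul_comm]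
    simp only [← Matrix.mul_assoc]; rw [hP.idem]
  have t2 : (P * φ * P).trace = t := by
    rw [Matrix.trace_mul_comm]
    simp only [← Matrix.mul_assoc]; rw [hP.idem]
  rw [e, Matrix.trace_add, Matrix.trace_sub, Matrix.trace_smul, Matrix.trace_smul, t1, t2, ht] at h
  simp only [smul_eq_mul] at h
  have e5 : 2 * c * t = 2 * (t ^ 2 / r) := by rw [hc]; ring
  have e6 : c ^ 2 * r = t ^ 2 / r := by rw [hc]; field_simp
  linarith

theorem rank_one {P φ : Matrix κ κ ℝ} {s : κ → ℝ} (hP : P = Matrix.vecMulVec s s) :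
    (P * φ * P * φ).trace = (P * φ).trace ^ 2 := by
  have e : (P * φ).trace = s ⬝ᵥ (φ *ᵥ s) := by
    rw [hP, Matrix.trace_mul_comm, Matrix.mul_vecMulVec, Matrix.trace_vecMulVec]
    exact dotProduct_comm _ _
  have e1 : P * φ * P = (P * φ).trace • P := by
    rw [e]
    have : φ * P = Matrix.vecMulVec (φ *ᵥ s) s := by rw [hP, Matrix.mul_vecMulVec]
    rw [Matrix.mul_assoc, this, Matrix.mul_vecMulVec, hP, Matrix.vecMulVec_mulVec]
    rw [op_smul_eq_smul, Matrix.smul_vecMulVec]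
  rw [e1, Matrix.smul_mul, Matrix.trace_smul, smul_eq_mul, sq]

theorem T_comm (a b φ : Matrix κ κ ℝ) : (a * φ * b * φ).trace = (b * φ * a * φ).trace := by
  rw [Matrix.mul_assoc (a * φ), Matrix.trace_mul_comm, ← Matrix.mul_assoc]

/-- the pointwise positivity, in terms of complementary projections -/
theorem key {P0 P1 P3 φ : Matrix κ κ ℝ} {s : κ → ℝ} {p q K1 K0 M L N : ℝ}
    (h1 : Proj P1) (h3 : Proj P3) (h13 : P1 + P3 = 1) (h0 : P0 = Matrix.vecMulVec s s)
    (hs : s ⬝ᵥ s = 1) (h1s : P1 *ᵥ s = s) (t1 : P1.trace = q + 1) (t3 : P3.trace = p)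
    (hq : 0 < q) (hp : 0 < p) (hφ : φᵀ = φ) (hφt : φ.trace = 0) (hφ0 : φ ≠ 0)
    (hc : PosCond p q K1 K0 M L N) :
    0 < K1 * ((P1 * φ * P1 * φ).trace - (P1 * φ).trace * (P1 * φ).trace)
      + 2 * M * ((P1 * φ * P3 * φ).trace - (P1 * φ).trace * (P3 * φ).trace)
      + N * ((P3 * φ * P3 * φ).trace - (P3 * φ).trace * (P3 * φ).trace)
      + 2 * (K0 - K1) * ((P0 * φ * P1 * φ).trace - (P0 * φ).trace * (P1 * φ).trace)
      + 2 * (L - M) * ((P0 * φ * P3 * φ).trace - (P0 * φ).trace * (P3 * φ).trace) := by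
  have p0s : P0ᵀ = P0 := by rw [h0, Matrix.transpose_vecMulVec]
  have p0 : Proj P0 := ⟨p0s, by
    rw [h0, Matrix.mul_vecMulVec, Matrix.vecMulVec_mulVec, hs, op_smul_eq_smul, one_smul]⟩
  have p10 : P1 * P0 = P0 := by rw [h0, Matrix.mul_vecMulVec, h1s]
  have p01 : P0 * P1 = P0 := by
    have := congrArg Matrix.transpose p10
    rwa [Matrix.transpose_mul, p0s, h1.symm] at this
  obtain ⟨P2, hP2⟩ : ∃ P2, P2 = P1 - P0 := ⟨_, rfl⟩
  have e1 : P1 = P0 + P2 := by rw [hP2]; abel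
  have p2 : Proj P2 := ⟨by rw [hP2, Matrix.transpose_sub, h1.symm, p0s], by
    rw [hP2, Matrix.sub_mul, Matrix.mul_sub, Matrix.mul_sub, h1.idem, p10, p01, p0.idem]; abel⟩
  have t0 : P0.trace = 1 := by rw [h0, Matrix.trace_vecMulVec, hs]
  have t2 : P2.trace = q := by rw [hP2, Matrix.trace_sub, t1, t0]; ring
  have hsum : P0 + P2 + P3 = 1 := by rw [← e1, h13]
  have hφt' : (P0 * φ).trace + (P2 * φ).trace + (P3 * φ).trace = 0 := by
    rw [← Matrix.trace_add, ← Matrix.trace_add, ← Matrix.add_mul, ← Matrix.add_mul, hsum,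
      Matrix.one_mul, hφt]
  have hpos : 0 < (φ * φᵀ).trace := frob_pos hφ0
  have hexp : (φ * φᵀ).trace = (P0 * φ * P0 * φ).trace + 2 * (P0 * φ * P2 * φ).trace
      + (P2 * φ * P2 * φ).trace + 2 * (P0 * φ * P3 * φ).trace + 2 * (P2 * φ * P3 * φ).trace
      + (P3 * φ * P3 * φ).trace := by
    rw [hφ]
    have : φ * φ = (P0 + P2 + P3) * φ * (P0 + P2 + P3) * φ := by
      rw [hsum, Matrix.one_mul, Matrix.mul_one]
    rw [this]
    simp only [Matrix.add_mul, Matrix.mul_add, Matrix.trace_add]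
    rw [T_comm P2 P0, T_comm P3 P0, T_comm P3 P2]
    ring
  have c0 := rank_one (φ := φ) h0
  have c2 := cs p2 hφ hq t2
  have c3 := cs h3 hφ hp t3
  have n02 := cross_nonneg p0 p2 hφ
  have n03 := cross_nonneg p0 h3 hφ
  have n23 := cross_nonneg p2 h3 hφ
  rw [hexp, c0] at hpos
  rw [e1]
  simp only [Matrix.add_mul, Matrix.mul_add, Matrix.trace_add]
  rw [T_comm P2 P0, c0]
  generalize (P0 * φ * P2 * φ).trace = A at *
  generalize (P2 * φ * P2 * φ).trace = B at *
  generalize (P0 * φ * P3 * φ).trace = C at *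
  generalize (P2 * φ * P3 * φ).trace = D at *
  generalize (P3 * φ * P3 * φ).trace = F at *
  generalize (P0 * φ).trace = x at *
  generalize (P2 * φ).trace = y at *
  generalize (P3 * φ).trace = w at *
  obtain ⟨k1, k0, m, l, n, u, v, d⟩ := hc
  have hx : x = -(y + w) := by linarith
  have hform : K1 * (x ^ 2 + A + (A + B) - (x + y) * (x + y)) + 2 * M * (C + D - (x + y) * w)
      + N * (F - w * w) + 2 * (K0 - K1) * (x ^ 2 + A - x * (x + y))
      + 2 * (L - M) * (C - x * w) =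
      2 * K0 * A + K1 * (B - y ^ 2 / q) + 2 * L * C + 2 * M * D + N * (F - w ^ 2 / p)
      + ((2 * K0 - (1 - 1 / q) * K1) * y ^ 2 + 2 * (K0 + L - M) * (y * w)
        + (2 * L - (1 - 1 / p) * N) * w ^ 2) := by
    rw [hx]; ring
  rw [hform]
  set U := 2 * K0 - (1 - 1 / q) * K1 with hU
  set V := 2 * L - (1 - 1 / p) * N with hV
  set W := K0 + L - M with hW
  have hquad : 0 ≤ U * y ^ 2 + 2 * W * (y * w) + V * w ^ 2 := by
    have : U * (U * y ^ 2 + 2 * W * (y * w) + V * w ^ 2) =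
      (U * y + W * w) ^ 2 + (U * V - W ^ 2) * w ^ 2 := by ring
    have h : 0 ≤ U * (U * y ^ 2 + 2 * W * (y * w) + V * w ^ 2) := by
      rw [this]
      have : 0 ≤ (U * V - W ^ 2) * w ^ 2 := mul_nonneg (by linarith) (sq_nonneg _)
      positivity
    exact nonneg_of_mul_nonneg_right h u
  have a1 : 0 ≤ 2 * K0 * A := by positivity
  have a2 : 0 ≤ K1 * (B - y ^ 2 / q) := mul_nonneg k1.le (by linarith)
  have a3 : 0 ≤ 2 * L * C := by positivity
  have a4 : 0 ≤ 2 * M * D := by positivity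
  have a5 : 0 ≤ N * (F - w ^ 2 / p) := mul_nonneg n.le (by linarith)
  by_contra hcon
  push Not at hcon
  have b1 : A = 0 := by
    have : 2 * K0 * A = 0 := by linarith
    rcases mul_eq_zero.1 this with h | h
    · linarith
    · exact h
  have b2 : B - y ^ 2 / q = 0 := by
    have : K1 * (B - y ^ 2 / q) = 0 := by linarith
    rcases mul_eq_zero.1 this with h | h
    · linarith
    · exact h
  have b3 : C = 0 := by
    have : 2 * L * C = 0 := by linarith
    rcases mul_eq_zero.1 this with h | h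
    · linarith
    · exact h
  have b4 : D = 0 := by
    have : 2 * M * D = 0 := by linarith
    rcases mul_eq_zero.1 this with h | h
    · linarith
    · exact h
  have b5 : F - w ^ 2 / p = 0 := by
    have : N * (F - w ^ 2 / p) = 0 := by linarith
    rcases mul_eq_zero.1 this with h | h
    · linarith
    · exact h
  have b6 : U * y ^ 2 + 2 * W * (y * w) + V * w ^ 2 = 0 := by linarith
  have b7 : (U * y + W * w) ^ 2 + (U * V - W ^ 2) * w ^ 2 = 0 := by
    have : U * (U * y ^ 2 + 2 * W * (y * w) + V * w ^ 2) =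
      (U * y + W * w) ^ 2 + (U * V - W ^ 2) * w ^ 2 := by ring
    rw [← this, b6, mul_zero]
  have hUV : 0 < U * V - W ^ 2 := by linarith
  have b8 : w = 0 := by
    have h1 : 0 ≤ (U * y + W * w) ^ 2 := sq_nonneg _
    have h2 : (U * V - W ^ 2) * w ^ 2 ≤ 0 := by linarith
    have h3 : w ^ 2 ≤ 0 := by
      by_contra h
      push Not at h
      have := mul_pos hUV h
      linarith
    have h4 : w ^ 2 = 0 := le_antisymm h3 (sq_nonneg _)
    exact pow_eq_zero_iff (two_ne_zero) |>.1 h4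
  have b9 : y = 0 := by
    rw [b8] at b6
    have : U * y ^ 2 = 0 := by linarith
    rcases mul_eq_zero.1 this with h | h
    · linarith
    · exact pow_eq_zero_iff (two_ne_zero) |>.1 h
  rw [b8] at b5 hx
  rw [b9] at b2 hx
  simp at b5 b2 hx
  rw [b1, b2, b3, b4, b5, hx] at hpos
  simp at hpos

end Mat

section Frame

set_option linter.unusedSectionVars false

variable {ι : Type} [Fintype ι] [DecidableEq ι]

theorem sum_eb (w : E ι) : w = ∑ l, w l • (eb l : E ι) := by
  ext k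
  simp [eb, Finset.sum_apply, Pi.single_apply]

theorem bil_expand (G : Bil (E ι)) (v w : E ι) : G v w = ∑ k, ∑ l, v k * w l * G (eb k) (eb l) := by
  conv_lhs => rw [sum_eb v, sum_eb w]
  simp only [map_sum, map_smul, _root_.sum_apply, _root_.smul_apply,
    smul_eq_mul, Finset.mul_sum]
  rw [Finset.sum_comm]
  refine Finset.sum_congr rfl fun k _ => Finset.sum_congr rfl fun l _ => ?_
  ring

/-- dual expansion in an orthonormal frame -/
theorem dual {G : Bil (E ι)} {e : ι → E ι} (he : IsOrtho G e) (k l : ι) :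
    ∑ i, (e i) k * G (e i) (eb l) = if k = l then 1 else 0 := by
  classical
  obtain ⟨M, hM⟩ : ∃ M : Matrix ι ι ℝ, ∀ i k, M i k = (e i) k := ⟨fun i k => (e i) k, fun _ _ => rfl⟩
  obtain ⟨g, hg⟩ : ∃ g : Matrix ι ι ℝ, ∀ k l, g k l = G (eb k) (eb l) :=
    ⟨fun k l => G (eb k) (eb l), fun _ _ => rfl⟩
  have h1 : M * g * Mᵀ = 1 := by
    ext i j
    rw [Matrix.one_apply, ← he i j, bil_expand G (e i) (e j)]
    simp only [Matrix.mul_apply, Finset.sum_mul, Matrix.transpose_apply]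
    rw [Finset.sum_comm]
    refine Finset.sum_congr rfl fun k _ => Finset.sum_congr rfl fun l _ => ?_
    rw [hM, hM, hg]
    ring
  have h2 : Mᵀ * (M * g) = 1 := by
    rw [mul_eq_one_comm]; exact h1
  have h3 := congrFun (congrFun h2 k) l
  rw [Matrix.one_apply, Matrix.mul_apply] at h3
  rw [← h3]
  refine Finset.sum_congr rfl fun i _ => ?_
  rw [Matrix.mul_apply, Matrix.transpose_apply, bil_expand G (e i) (eb l), hM]
  congr 1
  refine Finset.sum_congr rfl fun m _ => ?_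
  rw [hM, hg]
  simp [eb]

theorem expand {G : Bil (E ι)} {e : ι → E ι} (he : IsOrtho G e) (w : E ι) :
    ∑ i, G (e i) w • e i = w := by
  ext k
  have h : ∀ i, G (e i) w = ∑ l, w l * G (e i) (eb l) := by
    intro i
    conv_lhs => rw [sum_eb w]
    simp only [map_sum, map_smul, smul_eq_mul]
  simp only [WithLp.ofLp_sum, WithLp.ofLp_smul, Finset.sum_apply, Pi.smul_apply, smul_eq_mul, h,
    Finset.sum_mul]
  rw [Finset.sum_comm]
  have h2 : ∀ l, ∑ i, w l * G (e i) (eb l) * (e i) k = w l * (if k = l then 1 else 0) := by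
    intro l
    rw [← dual he k l, Finset.mul_sum]
    refine Finset.sum_congr rfl fun i _ => ?_
    ring
  simp only [h2]
  simp

theorem parseval {G : Bil (E ι)} {e : ι → E ι} (he : IsOrtho G e) (v w : E ι) :
    ∑ i, G v (e i) * G (e i) w = G v w := by
  conv_rhs => rw [← expand he w]
  simp only [map_sum, map_smul, smul_eq_mul]
  refine Finset.sum_congr rfl fun i _ => ?_
  ring

/-- the matrix of a form in a frame -/
def mat (e : ι → E ι) (b : Bil (E ι)) : Matrix ι ι ℝ := fun i j => b (e i) (e j)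

theorem sum_kn (e : ι → E ι) (a b : Bil (E ι)) (φ : Matrix ι ι ℝ) (hφ : φ.IsSymm) :
    ∑ i, ∑ j, ∑ k, ∑ l, KN a b (e i) (e k) (e j) (e l) * φ k l * φ i j =
      2 * ((mat e a * φ * mat e b * φ).trace - (mat e a * φ).trace * (mat e b * φ).trace) := by
  have h : ∀ i j k l, KN a b (e i) (e k) (e j) (e l) * φ k l * φ i j =
      mat e a i l * mat e b k j * φ k l * φ i j + mat e b i l * mat e a k j * φ k l * φ i j
      - mat e a i j * mat e b k l * φ k l * φ i j - mat e b i j * mat e a k l * φ k l * φ i j := by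
    intro i j k l
    simp only [KN, mat]
    ring
  simp only [h, Finset.sum_add_distrib, Finset.sum_sub_distrib]
  rw [sum_mat _ _ _ hφ, sum_mat _ _ _ hφ, sum_mat2 _ _ _ hφ, sum_mat2 _ _ _ hφ,
    T_comm (mat e b) (mat e a)]
  ring

end Frame

section Loc

set_option linter.unusedSectionVars false

variable {α β : Type} [Fintype α] [DecidableEq α] [Fintype β] [DecidableEq β]

/-- the part in the first factor -/
def pu (v : E (α ⊕ β)) : E (α ⊕ β) := WithLp.toLp 2 (Sum.elim (fun a => v (Sum.inl a)) 0)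
/-- the part in the second factor -/
def pz (v : E (α ⊕ β)) : E (α ⊕ β) := WithLp.toLp 2 (Sum.elim 0 (fun b => v (Sum.inr b)))

theorem prl_pu (v : E (α ⊕ β)) : (prl (pu v) : E α) = prl v := by ext i; simp [pu]
theorem prr_pu (v : E (α ⊕ β)) : (prr (pu v) : E β) = 0 := by ext i; simp [pu]
theorem prl_pz (v : E (α ⊕ β)) : (prl (pz v) : E α) = 0 := by ext i; simp [pz]
theorem prr_pz (v : E (α ⊕ β)) : (prr (pz v) : E β) = prr v := by ext i; simp [pz]

theorem g1_apply (η : ℝ → ℝ) (y v w : E (α ⊕ β)) : g1 η y v w =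
    ⟪(prr v : E β), prr w⟫ + η (‖(prr y : E β)‖ ^ 2) *
      (⟪(prr y : E β), prr v⟫ * ⟪(prr y : E β), prr w⟫) := by
  simp [g1]

theorem g3_apply (A : ℝ → ℝ) (y v w : E (α ⊕ β)) : g3 A y v w =
    A (‖(prr y : E β)‖ ^ 2) * (⟪(prl v : E α), prl w⟫ + (1 - ‖(prl y : E α)‖ ^ 2)⁻¹ *
      (⟪(prl y : E α), prl v⟫ * ⟪(prl y : E α), prl w⟫)) := by
  simp [g3, hrd]
  ring

theorem gloc_apply (η A : ℝ → ℝ) (y v w : E (α ⊕ β)) :
    gloc η A y v w = g1 η y v w + g3 A y v w := rfl

theorem g1_symm (η : ℝ → ℝ) (y v w : E (α ⊕ β)) : g1 η y v w = g1 η y w v := by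
  rw [g1_apply, g1_apply, real_inner_comm]; ring

theorem g3_symm (A : ℝ → ℝ) (y v w : E (α ⊕ β)) : g3 A y v w = g3 A y w v := by
  rw [g3_apply, g3_apply, real_inner_comm]; ring

theorem g_pu (η A : ℝ → ℝ) (y v w : E (α ⊕ β)) : gloc η A y (pu v) w = g3 A y v w := by
  rw [gloc_apply, g1_apply, g3_apply, g3_apply, prl_pu, prr_pu]; simp

theorem g_pz (η A : ℝ → ℝ) (y v w : E (α ⊕ β)) : gloc η A y (pz v) w = g1 η y v w := by
  rw [gloc_apply, g1_apply, g3_apply, g1_apply, prl_pz, prr_pz]; simp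

theorem g3_pz (A : ℝ → ℝ) (y v w : E (α ⊕ β)) : g3 A y v (pz w) = 0 := by
  rw [g3_apply, prl_pz]; simp

theorem g1_pz (η : ℝ → ℝ) (y v w : E (α ⊕ β)) : g1 η y v (pz w) = g1 η y v w := by
  rw [g1_apply, g1_apply, prr_pz]

theorem g1_pu (η : ℝ → ℝ) (y v w : E (α ⊕ β)) : g1 η y v (pu w) = 0 := by
  rw [g1_apply, prr_pu]; simp

theorem g3_pu (A : ℝ → ℝ) (y v w : E (α ⊕ β)) : g3 A y v (pu w) = g3 A y v w := by
  rw [g3_apply, g3_apply, prl_pu]

theorem proj1 {η A : ℝ → ℝ} {y : E (α ⊕ β)} {e : α ⊕ β → E (α ⊕ β)}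
    (he : IsOrtho (gloc η A y) e) : Proj (mat e (g1 η y)) := by
  refine ⟨by ext i j; exact g1_symm _ _ _ _, ?_⟩
  ext i j
  rw [Matrix.mul_apply]
  have h : ∀ k, mat e (g1 η y) i k * mat e (g1 η y) k j
      = gloc η A y (pz (e i)) (e k) * gloc η A y (e k) (pz (e j)) := by
    intro k
    rw [g_pz, gloc_apply η A y (e k), g1_pz, g3_pz, add_zero]; rfl
  simp only [h]
  rw [parseval he, g_pz, g1_pz]; rfl

theorem proj3 {η A : ℝ → ℝ} {y : E (α ⊕ β)} {e : α ⊕ β → E (α ⊕ β)}
    (he : IsOrtho (gloc η A y) e) : Proj (mat e (g3 A y)) := by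
  refine ⟨by ext i j; exact g3_symm _ _ _ _, ?_⟩
  ext i j
  rw [Matrix.mul_apply]
  have h : ∀ k, mat e (g3 A y) i k * mat e (g3 A y) k j
      = gloc η A y (pu (e i)) (e k) * gloc η A y (e k) (pu (e j)) := by
    intro k
    rw [g_pu, gloc_apply η A y (e k), g1_pu, g3_pu, zero_add]; rfl
  simp only [h]
  rw [parseval he, g_pu, g3_pu]; rfl

theorem sum13 {η A : ℝ → ℝ} {y : E (α ⊕ β)} {e : α ⊕ β → E (α ⊕ β)}
    (he : IsOrtho (gloc η A y) e) : mat e (g1 η y) + mat e (g3 A y) = 1 := by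
  ext i j
  rw [Matrix.one_apply, ← he i j]; rfl

theorem trace3 {η A : ℝ → ℝ} {y : E (α ⊕ β)} {e : α ⊕ β → E (α ⊕ β)}
    (he : IsOrtho (gloc η A y) e) : (mat e (g3 A y)).trace = Fintype.card α := by
  have hs : ∀ v w, gloc η A y v w = gloc η A y w v := fun v w => by
    rw [gloc_apply, gloc_apply, g1_symm, g3_symm]
  have h : ∀ i, mat e (g3 A y) i i = ∑ a : α, (e i) (Sum.inl a) * gloc η A y (e i) (eb (Sum.inl a)) := by
    intro i
    show g3 A y (e i) (e i) = _
    rw [← g_pu η A y (e i) (e i), hs]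
    conv_lhs => rw [sum_eb (pu (e i))]
    rw [map_sum, Fintype.sum_sum_type]
    simp [pu]
  simp only [Matrix.trace, Matrix.diag_apply, h]
  rw [Finset.sum_comm]
  have h2 : ∀ a : α, ∑ i, (e i) (Sum.inl a) * gloc η A y (e i) (eb (Sum.inl a)) = 1 := by
    intro a
    rw [dual he]; simp
  simp [h2]

theorem trace1 {η A : ℝ → ℝ} {y : E (α ⊕ β)} {e : α ⊕ β → E (α ⊕ β)}
    (he : IsOrtho (gloc η A y) e) : (mat e (g1 η y)).trace = Fintype.card β := by
  have h := congrArg Matrix.trace (sum13 he)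
  rw [Matrix.trace_add, trace3 he, Matrix.trace_one, Fintype.card_sum] at h
  push_cast at h
  linarith

theorem exists_Z {η A : ℝ → ℝ} {y : E (α ⊕ β)} (hβ : 0 < Fintype.card β)
    (hη : 0 < 1 + η (‖(prr y : E β)‖ ^ 2) * ‖(prr y : E β)‖ ^ 2) :
    ∃ Z : E (α ⊕ β), pz Z = Z ∧ 0 < gloc η A y Z Z ∧ ∀ v w, coR y v * coR y w * gloc η A y Z Z =
      (‖(prr y : E β)‖ ^ 2 * fP η (‖(prr y : E β)‖ ^ 2)) *
        (gloc η A y v Z * gloc η A y w Z) := by
  by_cases h0 : (prr y : E β) = 0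
  · obtain ⟨b⟩ := Fintype.card_pos_iff.1 hβ
    have hz : pz (eb (Sum.inr b) : E (α ⊕ β)) = eb (Sum.inr b) := by
      ext i
      rcases i with i | i <;> simp [pz, eb]
    refine ⟨eb (Sum.inr b), hz, ?_, ?_⟩
    · have h1 : gloc η A y (eb (Sum.inr b)) (eb (Sum.inr b)) =
          gloc η A y (pz (eb (Sum.inr b))) (eb (Sum.inr b)) := by rw [hz]
      have h2 : (prr (eb (Sum.inr b) : E (α ⊕ β)) : E β) = eb b := by
        ext i
        simp [eb, Pi.single_apply]
      rw [h1, g_pz, g1_apply, h0, h2]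
      simp [eb]
    · intro v w
      simp [h0]
  · have hτ : 0 < ‖(prr y : E β)‖ ^ 2 := by positivity
    have hG : ∀ v, gloc η A y v (pz y) =
        (1 + η (‖(prr y : E β)‖ ^ 2) * ‖(prr y : E β)‖ ^ 2) * coR y v := by
      intro v
      rw [gloc_apply, g1_pz, g3_pz, g1_apply, coR_apply, real_inner_self_eq_norm_sq,
        real_inner_comm (prr y : E β) (prr v : E β)]
      ring
    have hcc : coR y (pz y) = ‖(prr y : E β)‖ ^ 2 := by
      rw [coR_apply, prr_pz, real_inner_self_eq_norm_sq]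
    refine ⟨pz y, ?_, ?_, ?_⟩
    · ext i
      rcases i with i | i <;> simp [pz]
    · rw [hG, hcc]; positivity
    · intro v w
      rw [hG, hG, hG, hcc, fP]
      generalize ‖(prr y : E β)‖ ^ 2 = τ at *
      have := hη.ne'
      field_simp

end Loc

theorem posLoc (hC : CurvStatement) : PosLocStatement := by
  intro α β _ _ _ _ η A ρ hprof hα hβ y hy hpc e he φ hφ hφt hφ0
  obtain ⟨-, hcurv⟩ := hC α β η A ρ hprof
  have hsym : φᵀ = φ := hφ
  obtain ⟨τ, hτ⟩ : ∃ τ, τ = ‖(prr y : E β)‖ ^ 2 := ⟨_, rfl⟩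
  have hτρ : τ ∈ Ico 0 ρ := ⟨by rw [hτ]; positivity, by rw [hτ]; exact hy.1⟩
  have hη := hprof.η_pos τ hτρ
  obtain ⟨Z, hZ, hZp, hZ2⟩ := exists_Z (η := η) (A := A) (y := y) (by omega) (by rw [← hτ]; exact hη)
  have hs : ∀ v w, gloc η A y v w = gloc η A y w v := fun v w => by
    rw [gloc_apply, gloc_apply, g1_symm, g3_symm]
  have hGZ : ∀ v, gloc η A y v Z = g1 η y v Z := by
    intro v
    conv_lhs => rw [← hZ]
    rw [gloc_apply, g1_pz, g3_pz, add_zero]
  set c := gloc η A y Z Z with hc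
  set s : α ⊕ β → ℝ := fun i => gloc η A y (e i) Z / √c with hsdef
  have hsc : √c * √c = c := Real.mul_self_sqrt hZp.le
  have hsc0 : √c ≠ 0 := (Real.sqrt_pos.2 hZp).ne'
  have hss : s ⬝ᵥ s = 1 := by
    have h : s ⬝ᵥ s = (∑ i, gloc η A y Z (e i) * gloc η A y (e i) Z) / c := by
      rw [dotProduct, Finset.sum_div]
      refine Finset.sum_congr rfl fun i _ => ?_
      rw [hs Z (e i), hsdef, div_mul_div_comm, hsc]
    rw [h, parseval he, ← hc, div_self hZp.ne']
  have h1s : mat e (g1 η y) *ᵥ s = s := by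
    ext i
    have h : (mat e (g1 η y) *ᵥ s) i =
        (∑ j, gloc η A y (pz (e i)) (e j) * gloc η A y (e j) Z) / √c := by
      rw [Matrix.mulVec, dotProduct, Finset.sum_div]
      refine Finset.sum_congr rfl fun j _ => ?_
      rw [g_pz, hsdef, mul_div_assoc]; rfl
    rw [h, parseval he, g_pz, ← hGZ]
  have hR : mat e (rk (coR y)) = (τ * fP η τ) • Matrix.vecMulVec s s := by
    ext i j
    have h := hZ2 (e i) (e j)
    rw [← hτ] at h
    rw [Matrix.smul_apply, Matrix.vecMulVec_apply, smul_eq_mul]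
    show coR y (e i) * coR y (e j) = _
    rw [hsdef, div_mul_div_comm, hsc, ← mul_div_assoc, ← h, mul_div_assoc, div_self hZp.ne', mul_one]
  rw [← hτ] at hpc
  have hmain := key (proj1 he) (proj3 he) (sum13 he) rfl hss h1s
    (by rw [trace1 he]; ring : (mat e (g1 η y)).trace = ((Fintype.card β : ℝ) - 1) + 1)
    (trace3 he) (by have : (2:ℝ) ≤ Fintype.card β := by exact_mod_cast hβ
                    linarith) (by exact_mod_cast (by omega : 0 < Fintype.card α))
    hsym hφt hφ0 hpc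
  have hsk : skf (gloc η A) y e φ =
      (1/2 : ℝ) * fK1 η τ * (2 * ((mat e (g1 η y) * φ * mat e (g1 η y) * φ).trace
        - (mat e (g1 η y) * φ).trace * (mat e (g1 η y) * φ).trace))
      + fM η A τ * (2 * ((mat e (g1 η y) * φ * mat e (g3 A y) * φ).trace
        - (mat e (g1 η y) * φ).trace * (mat e (g3 A y) * φ).trace))
      + (1/2 : ℝ) * fN η A τ * (2 * ((mat e (g3 A y) * φ * mat e (g3 A y) * φ).trace
        - (mat e (g3 A y) * φ).trace * (mat e (g3 A y) * φ).trace))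
      + fkap η τ * (2 * ((mat e (rk (coR y)) * φ * mat e (g1 η y) * φ).trace
        - (mat e (rk (coR y)) * φ).trace * (mat e (g1 η y) * φ).trace))
      + flam η A τ * (2 * ((mat e (rk (coR y)) * φ * mat e (g3 A y) * φ).trace
        - (mat e (rk (coR y)) * φ).trace * (mat e (g3 A y) * φ).trace)) := by
    rw [← sum_kn e _ _ φ hφ, ← sum_kn e _ _ φ hφ, ← sum_kn e _ _ φ hφ, ← sum_kn e _ _ φ hφ,
      ← sum_kn e _ _ φ hφ, skf]
    simp only [Finset.mul_sum, ← Finset.sum_add_distrib]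
    refine Finset.sum_congr rfl fun i _ => Finset.sum_congr rfl fun j _ =>
      Finset.sum_congr rfl fun k _ => Finset.sum_congr rfl fun l _ => ?_
    rw [hcurv y hy, ← hτ]
    ring
  rw [hsk, hR]
  simp only [Matrix.smul_mul, Matrix.trace_smul, smul_eq_mul]
  have hk : fkap η τ * (τ * fP η τ) = fK0 η τ - fK1 η τ := by
    have hP : fP η τ * (1 + η τ * τ) = 1 := by rw [fP]; exact inv_mul_cancel₀ hη.ne'
    have : fK1 η τ = η τ * fP η τ * (fP η τ * (1 + η τ * τ)) := by rw [hP, mul_one]; rfl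
    rw [this, fK0, fkap]
    ring
  have hl : flam η A τ * (τ * fP η τ) = fL η A τ - fM η A τ := by rw [fL]; ring
  refine lt_of_lt_of_eq hmain ?_
  rw [← hk, ← hl]
  ring

end Pool.Agent.RF.H85
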