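import Pool.Agent.Helper36_RF.Rot

/-!
# Short rotations between points of the sphere (helper85)
-/

noncomputable section

open scoped ContDiff Topology RealInnerProductSpace
set_option maxSynthPendingDepth 3
open Set

namespace Pool.Agent.RF.H85

set_option linter.unusedSectionVars false

variable {ι : Type} [Fintype ι] [DecidableEq ι]

theorem hasDerivAt_rot (J : E ι →L[ℝ] E ι) (s : ℝ) :
    HasDerivAt (fun s => rot J s) (rot J s * J) s :=
  hasDerivAt_exp_smul_const J s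

theorem hasDerivAt_rot' (J : E ι →L[ℝ] E ι) (s : ℝ) :
    HasDerivAt (fun s => rot J s) (J * rot J s) s :=
  hasDerivAt_exp_smul_const' J s

theorem hasDerivAt_rot_apply (J : E ι →L[ℝ] E ι) (s : ℝ) (x : E ι) :
    HasDerivAt (fun s => rot J s x) (J (rot J s x)) s := by
  have h := (hasDerivAt_rot' J s).clm_apply (hasDerivAt_const s x)
  simpa using h

@[simp] theorem rot_zero (J : E ι →L[ℝ] E ι) : rot J 0 = ContinuousLinearMap.id ℝ (E ι) := by
  rw [rot, zero_smul]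
  exact NormedSpace.exp_zero

theorem rot_add (J : E ι →L[ℝ] E ι) (s t : ℝ) (x : E ι) :
    rot J (s + t) x = rot J s (rot J t x) := by
  have : rot J (s + t) = rot J s * rot J t := by
    rw [rot, rot, rot, add_smul]
    let _ : NormedAlgebra ℚ (E ι →L[ℝ] E ι) := NormedAlgebra.restrictScalars ℚ ℝ _
    exact NormedSpace.exp_add_of_commute ((Commute.refl J).smul_left s |>.smul_right t)
  rw [this]; rfl

theorem rot_neg_rot (J : E ι →L[ℝ] E ι) (s : ℝ) (x : E ι) : rot J s (rot J (-s) x) = x := by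
  rw [← rot_add, add_neg_cancel, rot_zero]; rfl

theorem rot_rot_neg (J : E ι →L[ℝ] E ι) (s : ℝ) (x : E ι) : rot J (-s) (rot J s x) = x := by
  rw [← rot_add, neg_add_cancel, rot_zero]; rfl

theorem norm_rot (J : Gam ι) (s : ℝ) (x : E ι) : ‖rot J.1 s x‖ = ‖x‖ := by
  have h : ∀ s, HasDerivAt (fun s => ⟪rot J.1 s x, rot J.1 s x⟫) 0 s := by
    intro s
    have h1 := (hasDerivAt_rot_apply J.1 s x).inner ℝ (hasDerivAt_rot_apply J.1 s x)
    have h2 : ⟪rot J.1 s x, J.1 (rot J.1 s x)⟫ + ⟪J.1 (rot J.1 s x), rot J.1 s x⟫ = 0 := by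
      rw [J.2.1]; ring
    rwa [h2] at h1
  have h1 : ⟪rot J.1 s x, rot J.1 s x⟫ = ⟪rot J.1 0 x, rot J.1 0 x⟫ :=
    is_const_of_deriv_eq_zero (fun s => (h s).differentiableAt) (fun s => (h s).deriv) s 0
  rw [rot_zero, real_inner_self_eq_norm_sq, real_inner_self_eq_norm_sq] at h1
  exact (sq_eq_sq₀ (norm_nonneg _) (norm_nonneg _)).1 h1

theorem norm_rot_sub_le (J : Gam ι) (s : ℝ) (x : E ι) : ‖rot J.1 s x - x‖ ≤ |s| * ‖x‖ := by
  have h := Convex.norm_image_sub_le_of_norm_hasDerivWithin_le (f := fun s => rot J.1 s x)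
    (f' := fun s => J.1 (rot J.1 s x)) (s := univ) (C := ‖x‖) (x := 0) (y := s)
    (fun t _ => (hasDerivAt_rot_apply J.1 t x).hasDerivWithinAt) (fun t _ => by
      calc ‖J.1 (rot J.1 t x)‖ ≤ ‖J.1‖ * ‖rot J.1 t x‖ := J.1.le_opNorm _
        _ ≤ 1 * ‖rot J.1 t x‖ := mul_le_mul_of_nonneg_right J.2.2 (norm_nonneg _)
        _ = ‖x‖ := by rw [one_mul, norm_rot]) convex_univ (mem_univ _) (mem_univ _)
  simp only [rot_zero, sub_zero, Real.norm_eq_abs] at h
  calc _ ≤ _ := h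
    _ = _ := mul_comm _ _

/-- the infinitesimal rotation in the plane of two orthonormal vectors -/
def pl (x b : E ι) : E ι →L[ℝ] E ι := (innerSL ℝ x).smulRight b - (innerSL ℝ b).smulRight x

theorem pl_apply (x b v : E ι) : pl x b v = ⟪x, v⟫ • b - ⟪b, v⟫ • x := by
  simp [pl]

theorem pl_skew (x b v w : E ι) : ⟪pl x b v, w⟫ = -⟪v, pl x b w⟫ := by
  simp only [pl_apply, inner_sub_left, inner_sub_right, inner_smul_left, inner_smul_right,
    RCLike.conj_to_real, real_inner_comm v]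
  rw [real_inner_comm x v, real_inner_comm b v]
  ring

theorem norm_pl {x b : E ι} (hx : ‖x‖ = 1) (hb : ‖b‖ = 1) (hxb : ⟪x, b⟫ = 0) : ‖pl x b‖ ≤ 1 := by
  refine ContinuousLinearMap.opNorm_le_bound _ zero_le_one fun v => ?_
  rw [one_mul]
  have hbx : ⟪b, x⟫ = 0 := by rw [real_inner_comm]; exact hxb
  have hxx : ⟪x, x⟫ = 1 := by rw [real_inner_self_eq_norm_sq, hx]; norm_num
  have hbb : ⟪b, b⟫ = 1 := by rw [real_inner_self_eq_norm_sq, hb]; norm_num
  have h1 : ‖pl x b v‖ ^ 2 = ⟪x, v⟫ ^ 2 + ⟪b, v⟫ ^ 2 := by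
    rw [← real_inner_self_eq_norm_sq, pl_apply]
    simp only [inner_sub_left, inner_sub_right, inner_smul_left, inner_smul_right,
      RCLike.conj_to_real, hbx, hxb, hxx, hbb]
    ring
  have h2 : ‖v - ⟪x, v⟫ • x - ⟪b, v⟫ • b‖ ^ 2 = ‖v‖ ^ 2 - ⟪x, v⟫ ^ 2 - ⟪b, v⟫ ^ 2 := by
    rw [← real_inner_self_eq_norm_sq, ← real_inner_self_eq_norm_sq v]
    simp only [inner_sub_left, inner_sub_right, inner_smul_left, inner_smul_right,
      RCLike.conj_to_real, hbx, hxb, hxx, hbb]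
    rw [real_inner_comm v x, real_inner_comm v b]
    ring
  have h3 := sq_nonneg ‖v - ⟪x, v⟫ • x - ⟪b, v⟫ • b‖
  rw [h2] at h3
  have h4 : ‖pl x b v‖ ^ 2 ≤ ‖v‖ ^ 2 := by rw [h1]; linarith
  exact (sq_le_sq₀ (norm_nonneg _) (norm_nonneg _)).1 h4

theorem rot_pl {x b : E ι} (hx : ‖x‖ = 1) (hb : ‖b‖ = 1) (hxb : ⟪x, b⟫ = 0) (s : ℝ) :
    rot (pl x b) s x = Real.cos s • x + Real.sin s • b := by
  have hbx : ⟪b, x⟫ = 0 := by rw [real_inner_comm]; exact hxb
  have hxx : ⟪x, x⟫ = 1 := by rw [real_inner_self_eq_norm_sq, hx]; norm_num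
  have hbb : ⟪b, b⟫ = 1 := by rw [real_inner_self_eq_norm_sq, hb]; norm_num
  have h : ∀ s, HasDerivAt (fun s => rot (pl x b) (-s) (Real.cos s • x + Real.sin s • b)) 0 s := by
    intro s
    have h1 : HasDerivAt (fun s => rot (pl x b) (-s)) (-(rot (pl x b) (-s) * pl x b)) s := by
      have := (hasDerivAt_rot (pl x b) (-s)).scomp s (hasDerivAt_neg s)
      rw [neg_one_smul] at this
      exact this
    have h2 : HasDerivAt (fun s => Real.cos s • x + Real.sin s • b)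
        ((-Real.sin s) • x + Real.cos s • b) s :=
      ((Real.hasDerivAt_cos s).smul_const x).add ((Real.hasDerivAt_sin s).smul_const b)
    have h3 := h1.clm_apply h2
    have e : pl x b (Real.cos s • x + Real.sin s • b) = (-Real.sin s) • x + Real.cos s • b := by
      rw [map_add, map_smul, map_smul, pl_apply, pl_apply, hxx, hbx, hxb, hbb]
      module
    have e2 : (-(rot (pl x b) (-s) * pl x b)) (Real.cos s • x + Real.sin s • b)
        + rot (pl x b) (-s) ((-Real.sin s) • x + Real.cos s • b) = 0 := by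
      show -(rot (pl x b) (-s) (pl x b (Real.cos s • x + Real.sin s • b))) + _ = _
      rw [e, neg_add_cancel]
    rwa [e2] at h3
  have h1 := is_const_of_deriv_eq_zero (fun s => (h s).differentiableAt) (fun s => (h s).deriv) s 0
  simp only [neg_zero, rot_zero, Real.cos_zero, Real.sin_zero, one_smul, zero_smul, add_zero] at h1
  have h2 := congrArg (rot (pl x b) s) h1
  rw [rot_neg_rot] at h2
  rw [h2]; rfl

theorem exists_orth (h2 : 2 ≤ Fintype.card ι) (x : E ι) : ∃ b : E ι, ‖b‖ = 1 ∧ ⟪x, b⟫ = 0 := by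
  have h : ((ℝ ∙ x)ᗮ : Submodule ℝ (E ι)) ≠ ⊥ := by
    intro h
    rw [Submodule.orthogonal_eq_bot_iff] at h
    have h3 : Module.finrank ℝ (ℝ ∙ x) = Fintype.card ι := by
      rw [h, finrank_top, finrank_euclideanSpace]
    have h4 : Module.finrank ℝ (ℝ ∙ x) ≤ 1 := by
      have := finrank_span_le_card (R := ℝ) ({x} : Set (E ι))
      simpa using this
    omega
  obtain ⟨b, hb, hb0⟩ := Submodule.exists_mem_ne_zero_of_ne_bot h
  refine ⟨‖b‖⁻¹ • b, ?_, ?_⟩
  · rw [norm_smul, norm_inv, norm_norm, inv_mul_cancel₀ (norm_ne_zero_iff.2 hb0)]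
  · rw [inner_smul_right, Submodule.mem_orthogonal_singleton_iff_inner_right.1 hb, mul_zero]

theorem exists_b (h2 : 2 ≤ Fintype.card ι) {x y : E ι} (hx : ‖x‖ = 1) (hy : ‖y‖ = 1) :
    ∃ b : E ι, ‖b‖ = 1 ∧ ⟪x, b⟫ = 0 ∧
      y = Real.cos (Real.arccos ⟪x, y⟫) • x + Real.sin (Real.arccos ⟪x, y⟫) • b := by
  have hxx : ⟪x, x⟫ = 1 := by rw [real_inner_self_eq_norm_sq, hx]; norm_num
  have hyy : ⟪y, y⟫ = 1 := by rw [real_inner_self_eq_norm_sq, hy]; norm_num
  set c := ⟪x, y⟫ with hc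
  have hc1 : |c| ≤ 1 := by
    have := abs_real_inner_le_norm x y
    rwa [hx, hy, one_mul] at this
  have hc2 := abs_le.1 hc1
  rw [Real.cos_arccos hc2.1 hc2.2, Real.sin_arccos]
  have hn : ‖y - c • x‖ ^ 2 = 1 - c ^ 2 := by
    rw [← real_inner_self_eq_norm_sq]
    simp only [inner_sub_left, inner_sub_right, inner_smul_left, inner_smul_right,
      RCLike.conj_to_real, hxx, hyy]
    rw [real_inner_comm x y, ← hc]
    ring
  have hn2 : √(1 - c ^ 2) = ‖y - c • x‖ := by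
    rw [← hn, Real.sqrt_sq (norm_nonneg _)]
  by_cases h0 : y - c • x = 0
  · obtain ⟨b, hb, hxb⟩ := exists_orth h2 x
    refine ⟨b, hb, hxb, ?_⟩
    rw [hn2, h0, norm_zero, zero_smul, add_zero]
    exact sub_eq_zero.1 h0
  · have hn0 : ‖y - c • x‖ ≠ 0 := norm_ne_zero_iff.2 h0
    refine ⟨‖y - c • x‖⁻¹ • (y - c • x), ?_, ?_, ?_⟩
    · rw [norm_smul, norm_inv, norm_norm, inv_mul_cancel₀ hn0]
    · rw [inner_smul_right, inner_sub_right, inner_smul_right, hxx, ← hc]; ring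
    · rw [hn2, smul_smul, mul_inv_cancel₀ hn0, one_smul]; abel

theorem arccos_le {x y : E ι} (hx : ‖x‖ = 1) (hy : ‖y‖ = 1) :
    Real.arccos ⟪x, y⟫ ≤ 3 * ‖x - y‖ := by
  set θ := Real.arccos ⟪x, y⟫ with hθ
  have hc1 : |⟪x, y⟫| ≤ 1 := by
    have := abs_real_inner_le_norm x y
    rwa [hx, hy, one_mul] at this
  have hc2 := abs_le.1 hc1
  have hcos : Real.cos θ = ⟪x, y⟫ := Real.cos_arccos hc2.1 hc2.2
  have h0 : 0 ≤ θ := Real.arccos_nonneg _
  have hπ : θ ≤ Real.pi := Real.arccos_le_pi _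
  have hn : ‖x - y‖ ^ 2 = (2 * Real.sin (θ / 2)) ^ 2 := by
    rw [norm_sub_sq_real, hx, hy, ← hcos]
    have h1 : Real.cos θ = 1 - 2 * Real.sin (θ / 2) ^ 2 := by
      have h2 := Real.cos_two_mul (θ / 2)
      rw [mul_div_cancel₀ _ two_ne_zero] at h2
      have h3 := Real.sin_sq_add_cos_sq (θ / 2)
      rw [h2]; linarith
    rw [h1]; ring
  have hs : 0 ≤ Real.sin (θ / 2) := Real.sin_nonneg_of_nonneg_of_le_pi (by linarith) (by linarith)
  have hn2 : ‖x - y‖ = 2 * Real.sin (θ / 2) :=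
    (sq_eq_sq₀ (norm_nonneg _) (by positivity)).1 hn
  have hj : 2 / Real.pi * (θ / 2) ≤ Real.sin (θ / 2) :=
    Real.mul_le_sin (by linarith) (by linarith)
  have hpi := Real.pi_pos
  have hpi4 := Real.pi_le_four
  have h5 : θ ≤ Real.pi * Real.sin (θ / 2) := by
    have := mul_le_mul_of_nonneg_left hj hpi.le
    have e : Real.pi * (2 / Real.pi * (θ / 2)) = θ := by field_simp
    rwa [e] at this
  have h6 : Real.pi * Real.sin (θ / 2) ≤ 4 * Real.sin (θ / 2) :=
    mul_le_mul_of_nonneg_right hpi4 hs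
  rw [hn2]; linarith

theorem rotPair : RotPairStatement := by
  intro ι _ _ h2
  refine ⟨norm_rot, norm_rot_sub_le, ?_⟩
  intro x y
  have hx : ‖(x : E ι)‖ = 1 := by simp
  have hy : ‖(y : E ι)‖ = 1 := by simp
  obtain ⟨b, hb, hxb, hyb⟩ := exists_b h2 hx hy
  refine ⟨⟨pl x b, pl_skew _ _, norm_pl hx hb hxb⟩, Real.arccos ⟪(x : E ι), y⟫,
    Real.arccos_nonneg _, ?_, ?_⟩
  · rw [Subtype.dist_eq, dist_eq_norm]
    exact arccos_le hx hy
  · rw [rot_pl hx hb hxb, ← hyb]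

end Pool.Agent.RF.H85
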