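import Pool.Agent.Helper85_RF.RotPair

/-!
# The rotation system on bilinear-form valued functions on the sphere (helper85)
-/

noncomputable section

open scoped ContDiff Topology RealInnerProductSpace
set_option maxSynthPendingDepth 3
set_option linter.unusedSectionVars false
open Set

namespace Pool.Agent.RF.H85

variable {ι : Type} [Fintype ι] [DecidableEq ι]

/-- conjugation of a form by a linear map -/
def cj (R : E ι →L[ℝ] E ι) (b : Bil (E ι)) : Bil (E ι) :=
  ((ContinuousLinearMap.compL ℝ (E ι) (E ι) ℝ).flip R ∘L b) ∘L R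

@[simp] theorem cj_apply (R : E ι →L[ℝ] E ι) (b : Bil (E ι)) (v w : E ι) :
    cj R b v w = b (R v) (R w) := rfl

theorem cj_eq (R : E ι →L[ℝ] E ι) (b : Bil (E ι)) : b.bilinearComp R R = cj R b := by
  ext v w; rfl

theorem continuous_cj : Continuous fun q : (E ι →L[ℝ] E ι) × Bil (E ι) => cj q.1 q.2 := by
  unfold cj
  exact ((((ContinuousLinearMap.compL ℝ (E ι) (E ι) ℝ).flip).continuous.comp
    continuous_fst).clm_comp continuous_snd).clm_comp continuous_fst

theorem cj_add (R : E ι →L[ℝ] E ι) (b c : Bil (E ι)) : cj R (b + c) = cj R b + cj R c := by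
  ext v w; rfl

theorem cj_smul (R : E ι →L[ℝ] E ι) (r : ℝ) (b : Bil (E ι)) : cj R (r • b) = r • cj R b := by
  ext v w; rfl

theorem norm_cj_le (J : Gam ι) (s : ℝ) (b : Bil (E ι)) : ‖cj (rot J.1 s) b‖ ≤ ‖b‖ := by
  refine ContinuousLinearMap.opNorm_le_bound₂ _ (norm_nonneg _) fun v w => ?_
  rw [cj_apply]
  calc _ ≤ ‖b‖ * ‖rot J.1 s v‖ * ‖rot J.1 s w‖ := b.le_opNorm₂ _ _
    _ = _ := by rw [norm_rot, norm_rot]

/-- action of a rotation on the sphere -/
def rotS (J : Gam ι) (s : ℝ) (x : Sph ι) : Sph ι :=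
  ⟨rot J.1 s x, by rw [mem_sphere_zero_iff_norm, norm_rot]; simp⟩

@[simp] theorem coe_rotS (J : Gam ι) (s : ℝ) (x : Sph ι) : ((rotS J s x : Sph ι) : E ι) = rot J.1 s x := rfl

theorem continuous_rot (J : E ι →L[ℝ] E ι) : Continuous fun s => rot J s :=
  continuous_iff_continuousAt.2 fun s => (hasDerivAt_rot J s).continuousAt

theorem continuous_rotS (J : Gam ι) : Continuous fun q : ℝ × Sph ι => rotS J q.1 q.2 := by
  refine Continuous.subtype_mk ?_ _
  exact ((continuous_rot J.1).comp continuous_fst).clm_apply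
    (continuous_subtype_val.comp continuous_snd)

theorem continuous_act (J : Gam ι) (f : C(Sph ι, Bil (E ι))) :
    Continuous fun q : ℝ × Sph ι => cj (rot J.1 q.1) (f (rotS J q.1 q.2)) :=
  continuous_cj.comp (((continuous_rot J.1).comp continuous_fst).prodMk
    (f.continuous.comp (continuous_rotS J)))

theorem continuous_act0 (J : Gam ι) (s : ℝ) (f : C(Sph ι, Bil (E ι))) :
    Continuous fun x : Sph ι => cj (rot J.1 s) (f (rotS J s x)) := by
  have h1 : Continuous fun x : Sph ι => ((s, x) : ℝ × Sph ι) := by fun_prop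
  have h2 := (continuous_act J f).comp h1
  simp only [Function.comp_def] at h2
  exact h2

/-- the action on functions, as a function -/
def act0 (J : Gam ι) (s : ℝ) (f : C(Sph ι, Bil (E ι))) : C(Sph ι, Bil (E ι)) :=
  ⟨fun x => cj (rot J.1 s) (f (rotS J s x)), continuous_act0 J s f⟩

theorem act0_apply (J : Gam ι) (s : ℝ) (f : C(Sph ι, Bil (E ι))) (x : Sph ι) :
    act0 J s f x = cj (rot J.1 s) (f (rotS J s x)) := rfl

theorem act0_add (J : Gam ι) (s : ℝ) (f g : C(Sph ι, Bil (E ι))) :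
    act0 J s (f + g) = act0 J s f + act0 J s g := by
  refine ContinuousMap.ext fun x => ?_
  rw [ContinuousMap.add_apply, act0_apply, act0_apply, act0_apply, ContinuousMap.add_apply, cj_add]

theorem act0_smul (J : Gam ι) (s : ℝ) (c : ℝ) (f : C(Sph ι, Bil (E ι))) :
    act0 J s (c • f) = c • act0 J s f := by
  refine ContinuousMap.ext fun x => ?_
  rw [ContinuousMap.smul_apply, act0_apply, act0_apply, ContinuousMap.smul_apply, cj_smul]

theorem norm_act0_le (J : Gam ι) (s : ℝ) (f : C(Sph ι, Bil (E ι))) : ‖act0 J s f‖ ≤ ‖f‖ :=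
  (ContinuousMap.norm_le _ (norm_nonneg _)).2 fun x =>
    (norm_cj_le J s _).trans (f.norm_coe_le_norm _)

/-- the action on functions -/
def act (J : Gam ι) (s : ℝ) : C(Sph ι, Bil (E ι)) →L[ℝ] C(Sph ι, Bil (E ι)) :=
  LinearMap.mkContinuous
    { toFun := act0 J s
      map_add' := act0_add J s
      map_smul' := act0_smul J s } 1
    (fun f => (norm_act0_le J s f).trans (one_mul _).symm.le)

@[simp] theorem act_apply (J : Gam ι) (s : ℝ) (f : C(Sph ι, Bil (E ι))) (x : Sph ι) :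
    act J s f x = cj (rot J.1 s) (f (rotS J s x)) := rfl

theorem act_zero (J : Gam ι) (f : C(Sph ι, Bil (E ι))) : act J 0 f = f := by
  ext x v w
  have : rotS J 0 x = x := by apply Subtype.ext; simp
  simp [this]

theorem act_add (J : Gam ι) (s t : ℝ) (f : C(Sph ι, Bil (E ι))) :
    act J (s + t) f = act J s (act J t f) := by
  ext x v w
  have h : rotS J (s + t) x = rotS J t (rotS J s x) := by
    apply Subtype.ext
    simp [add_comm s t, rot_add]
  rw [act_apply, act_apply, act_apply, h, cj_apply, cj_apply, cj_apply, add_comm s t, rot_add,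
    rot_add]

theorem norm_act_le (J : Gam ι) (s : ℝ) (f : C(Sph ι, Bil (E ι))) : ‖act J s f‖ ≤ ‖f‖ :=
  (ContinuousMap.norm_le _ (norm_nonneg _)).2 fun x =>
    (norm_cj_le J s _).trans (f.norm_coe_le_norm _)

theorem norm_act (J : Gam ι) (s : ℝ) (f : C(Sph ι, Bil (E ι))) : ‖act J s f‖ = ‖f‖ := by
  refine le_antisymm (norm_act_le J s f) ?_
  have h := norm_act_le J (-s) (act J s f)
  rwa [← act_add, neg_add_cancel, act_zero] at h

theorem continuous_act' (J : Gam ι) (f : C(Sph ι, Bil (E ι))) :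
    Continuous fun s => act J s f := by
  have h := (ContinuousMap.curry ⟨_, continuous_act J f⟩).continuous
  refine h.congr fun s => ?_
  ext x v w
  rfl

/-- uniform differentiability from pointwise differentiability with continuous derivative -/
theorem hasDerivAt_of_pointwise {K Y : Type} [TopologicalSpace K] [CompactSpace K]
    [NormedAddCommGroup Y] [NormedSpace ℝ Y] {φ φ' : ℝ → C(K, Y)}
    (hc : ContinuousAt φ' 0) (h : ∀ s x, HasDerivAt (fun s => φ s x) (φ' s x) s) :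
    HasDerivAt φ (φ' 0) 0 := by
  rw [hasDerivAt_iff_isLittleO, Asymptotics.isLittleO_iff]
  intro ε hε
  obtain ⟨δ, hδ, hδ2⟩ := Metric.continuousAt_iff.1 hc ε hε
  filter_upwards [Metric.ball_mem_nhds (0:ℝ) hδ] with s hs
  rw [ContinuousMap.norm_le _ (by positivity)]
  intro x
  have hmv := Convex.norm_image_sub_le_of_norm_hasDerivWithin_le
    (f := fun r => φ r x - r • φ' 0 x) (f' := fun r => φ' r x - φ' 0 x)
    (s := Metric.ball (0:ℝ) δ) (C := ε) (x := 0) (y := s)
    (fun r _ => by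
      have h1 := (h r x).sub ((hasDerivAt_id r).smul_const (φ' 0 x))
      rw [one_smul] at h1
      exact h1.hasDerivWithinAt)
    (fun r hr => by
      have h1 := (hδ2 hr).le
      rw [dist_eq_norm] at h1
      exact ((φ' r - φ' 0).norm_coe_le_norm x).trans h1)
    (convex_ball _ _) (Metric.mem_ball_self hδ) hs
  have e : φ s x - s • φ' 0 x - (φ 0 x - (0:ℝ) • φ' 0 x) =
      (φ s - φ 0 - (s - 0) • φ' 0) x := by
    simp only [ContinuousMap.sub_apply, ContinuousMap.smul_apply, sub_zero, zero_smul]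
    abel
  rw [← e]
  exact hmv

/-- restriction to the sphere -/
def res (g : E ι → Bil (E ι)) (hg : Continuous g) : C(Sph ι, Bil (E ι)) :=
  ⟨fun x => g x, hg.comp continuous_subtype_val⟩

@[simp] theorem res_apply (g : E ι → Bil (E ι)) (hg : Continuous g) (x : Sph ι) :
    res g hg x = g x := rfl

theorem contDiff_lieX (J : E ι →L[ℝ] E ι) {g : E ι → Bil (E ι)} (hg : ContDiff ℝ ∞ g) :
    ContDiff ℝ ∞ (lieX J g) := by
  unfold lieX
  have h1 : ContDiff ℝ ∞ (fderiv ℝ g) := hg.fderiv_right (by simp)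
  exact ((h1.clm_apply J.contDiff).add (hg.clm_comp contDiff_const)).add
    (contDiff_const.clm_comp hg)

theorem hasDerivAt_cj (J : Gam ι) {g : E ι → Bil (E ι)} (hg : Differentiable ℝ g) (y : E ι) :
    HasDerivAt (fun h => cj (rot J.1 h) (g (rot J.1 h y))) (lieX J.1 g y) 0 := by
  have h1 : HasDerivAt (fun h => rot J.1 h) J.1 0 := by
    have := hasDerivAt_rot' J.1 0
    rw [rot_zero] at this
    exact this
  have h2 : HasDerivAt (fun h => rot J.1 h y) (J.1 y) 0 := by
    have := hasDerivAt_rot_apply J.1 0 y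
    rwa [rot_zero] at this
  have h3 : HasDerivAt (fun h => g (rot J.1 h y)) (fderiv ℝ g y (J.1 y)) 0 := by
    have h4 : HasFDerivAt g (fderiv ℝ g y) (rot J.1 0 y) := by
      rw [rot_zero]; exact (hg y).hasFDerivAt
    exact h4.comp_hasDerivAt 0 h2
  have h5 : HasDerivAt (fun h => (ContinuousLinearMap.compL ℝ (E ι) (E ι) ℝ).flip (rot J.1 h))
      ((ContinuousLinearMap.compL ℝ (E ι) (E ι) ℝ).flip J.1) 0 :=
    ((ContinuousLinearMap.compL ℝ (E ι) (E ι) ℝ).flip).hasFDerivAt.comp_hasDerivAt 0 h1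
  have h6 := (h5.clm_comp h3).clm_comp h1
  refine h6.congr_deriv ?_
  ext v w
  simp
  ring

/-- `cj` as a continuous linear map -/
def cjL (R : E ι →L[ℝ] E ι) : Bil (E ι) →L[ℝ] Bil (E ι) :=
  ((ContinuousLinearMap.compL ℝ (E ι) (E ι) (E ι →L[ℝ] ℝ)).flip R) ∘L
    (ContinuousLinearMap.compL ℝ (E ι) (E ι →L[ℝ] ℝ) (E ι →L[ℝ] ℝ)
      ((ContinuousLinearMap.compL ℝ (E ι) (E ι) ℝ).flip R))

theorem cjL_apply (R : E ι →L[ℝ] E ι) (b : Bil (E ι)) : cjL R b = cj R b := rfl

theorem hasDerivAt_act_apply (J : Gam ι) {g : E ι → Bil (E ι)} (hg : ContDiff ℝ ∞ g) (s : ℝ)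
    (x : Sph ι) : HasDerivAt (fun s => act J s (res g hg.continuous) x)
      (act J s (res (lieX J.1 g) (contDiff_lieX J.1 hg).continuous) x) s := by
  have h1 := hasDerivAt_cj J (hg.differentiable (by simp)) (rot J.1 s x)
  have h2 := (cjL (rot J.1 s)).hasFDerivAt.comp_hasDerivAt 0 h1
  have h3 : HasDerivAt (fun r => (cjL (rot J.1 s) ∘ fun h => cj (rot J.1 h)
      (g (rot J.1 h (rot J.1 s x)))) (r - s)) (cjL (rot J.1 s) (lieX J.1 g (rot J.1 s x))) s := by
    apply HasDerivAt.comp_sub_const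
    rw [sub_self]
    exact h2
  refine h3.congr_of_eventuallyEq (Filter.Eventually.of_forall fun r => ?_)
  show act J r (res g hg.continuous) x = cj (rot J.1 s) (cj (rot J.1 (r - s))
      (g (rot J.1 (r - s) (rot J.1 s x))))
  have h4 : act J r (res g hg.continuous) = act J s (act J (r - s) (res g hg.continuous)) := by
    rw [← act_add, add_sub_cancel]
  rw [h4]
  rfl

theorem hasDerivAt_act (J : Gam ι) {g : E ι → Bil (E ι)} (hg : ContDiff ℝ ∞ g) :
    HasDerivAt (fun s => act J s (res g hg.continuous))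
      (res (lieX J.1 g) (contDiff_lieX J.1 hg).continuous) 0 := by
  have h := hasDerivAt_of_pointwise (φ := fun s => act J s (res g hg.continuous))
    (φ' := fun s => act J s (res (lieX J.1 g) (contDiff_lieX J.1 hg).continuous))
    (continuous_act' J _).continuousAt (fun s x => hasDerivAt_act_apply J hg s x)
  rwa [act_zero] at h

theorem lieX_sum {A : Type} (t : Finset A) (c : A → ℝ) (J : A → E ι →L[ℝ] E ι)
    (g : E ι → Bil (E ι)) (x : E ι) :
    lieX (∑ a ∈ t, c a • J a) g x = ∑ a ∈ t, c a • lieX (J a) g x := by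
  ext v w
  simp only [lieX_apply, _root_.sum_apply, _root_.smul_apply, map_sum, map_smul, smul_eq_mul,
    ← Finset.sum_add_distrib, mul_add]

theorem lieX_fsum {A : Type} (t : Finset A) (c : A → ℝ) (J : E ι →L[ℝ] E ι)
    (g : A → E ι → Bil (E ι)) (hg : ∀ a, Differentiable ℝ (g a)) (x : E ι) :
    lieX J (fun y => ∑ a ∈ t, c a • g a y) x = ∑ a ∈ t, c a • lieX J (g a) x := by
  have h : fderiv ℝ (fun y => ∑ a ∈ t, c a • g a y) x = ∑ a ∈ t, c a • fderiv ℝ (g a) x := by
    apply HasFDerivAt.fderiv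
    exact HasFDerivAt.fun_sum fun a _ => (hg a x).hasFDerivAt.const_smul (c a)
  ext v w
  simp only [lieX_apply, h, _root_.sum_apply, _root_.smul_apply, smul_eq_mul,
    ← Finset.sum_add_distrib, mul_add]

theorem fderiv_lieX (B : E ι →L[ℝ] E ι) {g : E ι → Bil (E ι)} (hg : ContDiff ℝ ∞ g)
    (x u v w : E ι) : fderiv ℝ (lieX B g) x u v w =
      fderiv ℝ (fderiv ℝ g) x u (B x) v w + fderiv ℝ g x (B u) v w + fderiv ℝ g x u (B v) w
      + fderiv ℝ g x u v (B w) := by
  have h0 : ContDiff ℝ ∞ (fderiv ℝ g) := hg.fderiv_right (by simp)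
  have h1 : HasFDerivAt g (fderiv ℝ g x) x := (hg.differentiable (by simp) x).hasFDerivAt
  have h2 : HasFDerivAt (fderiv ℝ g) (fderiv ℝ (fderiv ℝ g) x) x :=
    (h0.differentiable (by simp) x).hasFDerivAt
  have h3 := ((h2.clm_apply B.hasFDerivAt).add (h1.clm_comp (hasFDerivAt_const B x))).add
    ((hasFDerivAt_const ((ContinuousLinearMap.compL ℝ (E ι) (E ι) ℝ).flip B) x).clm_comp h1)
  have h4 := h3.fderiv
  have h5 : fderiv ℝ (lieX B g) x = _ := h4
  rw [h5]
  simp
  ring

theorem lieX_comm (A B : E ι →L[ℝ] E ι) {g : E ι → Bil (E ι)} (hg : ContDiff ℝ ∞ g) (x : E ι) :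
    lieX A (lieX B g) x = lieX B (lieX A g) x + lieX (B ∘L A - A ∘L B) g x := by
  ext v w
  have hs : fderiv ℝ (fderiv ℝ g) x (A x) (B x) = fderiv ℝ (fderiv ℝ g) x (B x) (A x) := by
    have : IsSymmSndFDerivAt ℝ g x := hg.contDiffAt.isSymmSndFDerivAt (by
      rw [minSmoothness_of_isRCLikeNormedField]; exact WithTop.coe_le_coe.2 le_top)
    exact this _ _
  simp only [lieX_apply, fderiv_lieX A hg, fderiv_lieX B hg, _root_.add_apply, hs,
    ContinuousLinearMap.comp_apply, _root_.sub_apply, map_sub]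
  ring

theorem Jst_apply (a : ι × ι) (v : E ι) :
    Jst a v = (√2)⁻¹ • (v a.2 • (eb a.1 : E ι) - v a.1 • (eb a.2 : E ι)) := by
  simp [Jst]

theorem Jst_eq (a : ι × ι) : (Jst a : E ι →L[ℝ] E ι) = (√2)⁻¹ • pl (eb a.2) (eb a.1) := by
  refine ContinuousLinearMap.ext fun v => ?_
  rw [Jst_apply, _root_.smul_apply, pl_apply]
  simp [eb, EuclideanSpace.inner_single_left]

/-- skew-symmetric maps -/
def Skew (J : E ι →L[ℝ] E ι) : Prop := ∀ v w, ⟪J v, w⟫ = -⟪v, J w⟫

theorem Jst_skew (a : ι × ι) : Skew (Jst a : E ι →L[ℝ] E ι) := by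
  intro v w
  rw [Jst_eq, _root_.smul_apply, _root_.smul_apply, inner_smul_left, inner_smul_right, pl_skew]
  simp

theorem norm_eb (i : ι) : ‖(eb i : E ι)‖ = 1 := by simp [eb]

theorem Jst_norm (a : ι × ι) : ‖(Jst a : E ι →L[ℝ] E ι)‖ ≤ 1 := by
  have hs : (√2)⁻¹ ≤ 1 := by
    apply inv_le_one_of_one_le₀
    rw [Real.one_le_sqrt]; norm_num
  by_cases h : a.1 = a.2
  · have : (Jst a : E ι →L[ℝ] E ι) = 0 := by
      refine ContinuousLinearMap.ext fun v => ?_
      rw [Jst_apply, h]; simp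
    rw [this]; simp
  · rw [Jst_eq, norm_smul, norm_inv, Real.norm_of_nonneg (Real.sqrt_nonneg 2)]
    have h1 : ‖pl (eb a.2 : E ι) (eb a.1)‖ ≤ 1 := by
      refine norm_pl (norm_eb _) (norm_eb _) ?_
      have h' : ¬ a.2 = a.1 := fun h' => h h'.symm
      simp [eb, EuclideanSpace.inner_single_left, h']
    calc _ ≤ (1:ℝ) * 1 := mul_le_mul hs h1 (norm_nonneg _) zero_le_one
      _ = 1 := one_mul _

theorem skew_coord {K : E ι →L[ℝ] E ι} (hK : Skew K) (p q : ι) :
    (K (eb q)) p = -(K (eb p)) q := by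
  have h := hK (eb q) (eb p)
  simp only [eb, EuclideanSpace.inner_single_left, EuclideanSpace.inner_single_right] at h
  simp at h
  exact h

theorem coord_apply (K : E ι →L[ℝ] E ι) (v : E ι) (i : ι) :
    (K v) i = ∑ j, v j * (K (eb j)) i := by
  conv_lhs => rw [show v = ∑ l, v l • (eb l : E ι) from by
    ext k; simp [eb, Finset.sum_apply, Pi.single_apply]]
  rw [map_sum]
  simp [Finset.sum_apply]

theorem skew_decomp {K : E ι →L[ℝ] E ι} (hK : Skew K) :
    K = ∑ a : ι × ι, ((K (eb a.2)) a.1 / √2) • Jst a := by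
  refine ContinuousLinearMap.ext fun v => ?_
  ext i
  have h2 : √2 * √2 = (2:ℝ) := Real.mul_self_sqrt (by norm_num)
  have h20 : √2 ≠ (0:ℝ) := by positivity
  have hterm : ∀ a : ι × ι, ((((K (eb a.2)) a.1 / √2) • Jst a) v) i =
      (1/2) * ((K (eb a.2)) a.1 * v a.2 * (if i = a.1 then 1 else 0)
        - (K (eb a.2)) a.1 * v a.1 * (if i = a.2 then 1 else 0)) := by
    intro a
    rw [_root_.smul_apply, Jst_apply]
    simp only [WithLp.ofLp_smul, WithLp.ofLp_sub, Pi.smul_apply, Pi.sub_apply, smul_eq_mul, eb,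
      PiLp.single_apply]
    have : (K (EuclideanSpace.single a.2 1)).ofLp a.1 / √2 * ((√2)⁻¹ *
        (v a.2 * (if i = a.1 then 1 else 0) - v a.1 * (if i = a.2 then 1 else 0)))
        = (K (EuclideanSpace.single a.2 1)).ofLp a.1 * (√2 * √2)⁻¹ *
        (v a.2 * (if i = a.1 then 1 else 0) - v a.1 * (if i = a.2 then 1 else 0)) := by
      rw [mul_inv]; ring
    rw [this, h2]
    ring
  rw [_root_.sum_apply]
  simp only [WithLp.ofLp_sum, Finset.sum_apply, hterm]
  rw [Fintype.sum_prod_type]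
  simp only [← Finset.mul_sum, Finset.sum_sub_distrib]
  have e1 : ∑ p, ∑ q, (K (eb q)) p * v q * (if i = p then (1:ℝ) else 0) = (K v) i := by
    rw [Finset.sum_comm, coord_apply K v i]
    refine Finset.sum_congr rfl fun q _ => ?_
    simp [mul_comm]
  have e2 : ∑ p, ∑ q, (K (eb q)) p * v p * (if i = q then (1:ℝ) else 0) = -(K v) i := by
    rw [coord_apply K v i, ← Finset.sum_neg_distrib]
    refine Finset.sum_congr rfl fun p _ => ?_
    simp [skew_coord hK p i, mul_comm]
  rw [e1, e2]; ring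

/-- structure constants -/
def kap (b a c : ι × ι) : ℝ :=
  (((Jst a ∘L Jst b - Jst b ∘L Jst a : E ι →L[ℝ] E ι)) (eb c.2)) c.1 / √2

theorem kap_antisymm (b a c : ι × ι) : kap b a c = - kap b c a := by
  have h1 := fun p q => skew_coord (Jst_skew (ι := ι) b) p q
  have e : ∀ a c : ι × ι, (((Jst a ∘L Jst b - Jst b ∘L Jst a : E ι →L[ℝ] E ι)) (eb c.2)) c.1 =
      (√2)⁻¹ * ((Jst b (eb c.2)) a.2 * (if c.1 = a.1 then 1 else 0)
        - (Jst b (eb c.2)) a.1 * (if c.1 = a.2 then 1 else 0)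
        - (if a.2 = c.2 then 1 else 0) * (Jst b (eb a.1)) c.1
        + (if a.1 = c.2 then 1 else 0) * (Jst b (eb a.2)) c.1) := by
    intro a c
    have e1 : (Jst a (Jst b (eb c.2))) c.1 = (√2)⁻¹ * ((Jst b (eb c.2)) a.2 *
        (if c.1 = a.1 then 1 else 0) - (Jst b (eb c.2)) a.1 * (if c.1 = a.2 then 1 else 0)) := by
      rw [Jst_apply a]
      simp [eb]
    have e2 : (Jst b (Jst a (eb c.2))) c.1 = (√2)⁻¹ * ((if a.2 = c.2 then 1 else 0) *
        (Jst b (eb a.1)) c.1 - (if a.1 = c.2 then 1 else 0) * (Jst b (eb a.2)) c.1) := by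
      rw [Jst_apply a, map_smul, map_sub, map_smul, map_smul]
      simp [eb]
      split_ifs <;> simp
    rw [_root_.sub_apply, ContinuousLinearMap.comp_apply, ContinuousLinearMap.comp_apply,
      WithLp.ofLp_sub, Pi.sub_apply, e1, e2]
    ring
  rw [kap, kap, e a c, e c a, h1 a.2 c.2, h1 a.1 c.2, h1 c.1 a.1, h1 c.1 a.2]
  have s1 : (if c.1 = a.1 then (1:ℝ) else 0) = if a.1 = c.1 then 1 else 0 := by
    simp [eq_comm]
  have s2 : (if c.1 = a.2 then (1:ℝ) else 0) = if a.2 = c.1 then 1 else 0 := by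
    simp [eq_comm]
  have s3 : (if c.2 = a.2 then (1:ℝ) else 0) = if a.2 = c.2 then 1 else 0 := by
    simp [eq_comm]
  rw [s1, s2, s3]
  ring

theorem comm_skew {J K : E ι →L[ℝ] E ι} (hJ : Skew J) (hK : Skew K) : Skew (J ∘L K - K ∘L J) := by
  intro v w
  simp only [_root_.sub_apply, ContinuousLinearMap.comp_apply, inner_sub_left, inner_sub_right]
  rw [hJ, hK, hK, hJ]; ring

theorem lieX_comm_basis (b a : ι × ι) {g : E ι → Bil (E ι)} (hg : ContDiff ℝ ∞ g) (x : E ι) :
    lieX (Jst b) (lieX (Jst a) g) x = lieX (Jst a) (lieX (Jst b) g) x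
      + ∑ c, kap b a c • lieX (Jst c) g x := by
  rw [lieX_comm _ _ hg]
  congr 1
  conv_lhs => rw [skew_decomp (comm_skew (Jst_skew a) (Jst_skew b))]
  rw [lieX_sum]
  rfl

theorem casimir_fun (b : ι × ι) {g : E ι → Bil (E ι)} (hg : ContDiff ℝ ∞ g) (x : E ι) :
    lieX (Jst b) (fun y => ∑ a, (1:ℝ) • lieX (Jst a) (lieX (Jst a) g) y) x =
      ∑ a, lieX (Jst a) (lieX (Jst a) (lieX (Jst b) g)) x := by
  have hs : ∀ J : E ι →L[ℝ] E ι, ContDiff ℝ ∞ (lieX J g) := fun J => contDiff_lieX J hg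
  rw [lieX_fsum _ _ _ (fun a => lieX (Jst a) (lieX (Jst a) g))
    (fun a => (contDiff_lieX _ (hs _)).differentiable (by simp))]
  have h1 : ∀ a : ι × ι, (1:ℝ) • lieX (Jst b) (lieX (Jst a) (lieX (Jst a) g)) x =
      lieX (Jst a) (lieX (Jst a) (lieX (Jst b) g)) x
      + ∑ c, kap b a c • lieX (Jst a) (lieX (Jst c) g) x
      + ∑ c, kap b a c • lieX (Jst c) (lieX (Jst a) g) x := by
    intro a
    rw [one_smul, lieX_comm_basis b a (hs _)]
    congr 1
    have h2 : lieX (Jst b) (lieX (Jst a) g) = fun y => ∑ o : Option (ι × ι),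
        (Option.elim o 1 (fun c => kap b a c)) •
          (Option.elim o (lieX (Jst a) (lieX (Jst b) g)) (fun c => lieX (Jst c) g)) y := by
      funext y
      rw [lieX_comm_basis b a hg, Fintype.sum_option]
      simp
    rw [h2, lieX_fsum _ _ _ (fun o : Option (ι × ι) =>
      (Option.elim o (lieX (Jst a) (lieX (Jst b) g)) (fun c => lieX (Jst c) g)))
      (fun o => by
        rcases o with _ | c
        · exact (contDiff_lieX _ (hs _)).differentiable (by simp)
        · exact (hs _).differentiable (by simp)), Fintype.sum_option]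
    simp
  simp only [h1, Finset.sum_add_distrib]
  have h3 : ∑ a : ι × ι, ∑ c : ι × ι, kap b a c • lieX (Jst c) (lieX (Jst a) g) x =
      - ∑ a : ι × ι, ∑ c : ι × ι, kap b a c • lieX (Jst a) (lieX (Jst c) g) x := by
    rw [Finset.sum_comm, ← Finset.sum_neg_distrib]
    refine Finset.sum_congr rfl fun a _ => ?_
    rw [← Finset.sum_neg_distrib]
    refine Finset.sum_congr rfl fun c _ => ?_
    rw [kap_antisymm b c a, neg_smul]
  rw [h3]
  abel

/-- constant functions -/
def cst : Bil (E ι) →ₗ[ℝ] C(Sph ι, Bil (E ι)) where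
  toFun b := ContinuousMap.const _ b
  map_add' _ _ := rfl
  map_smul' _ _ := rfl

/-- pointwise product with a scalar function -/
def mulF (p : C(Sph ι, ℝ)) : C(Sph ι, Bil (E ι)) →ₗ[ℝ] C(Sph ι, Bil (E ι)) where
  toFun f := ⟨fun x => p x • f x, p.continuous.smul f.continuous⟩
  map_add' f g := by ext x v w; simp
  map_smul' c f := by ext x v w; simp [mul_left_comm]

@[simp] theorem mulF_apply (p : C(Sph ι, ℝ)) (f : C(Sph ι, Bil (E ι))) (x : Sph ι) :
    mulF p f x = p x • f x := rfl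

/-- coordinate functions -/
def cx (i : ι) : C(Sph ι, ℝ) := ⟨fun x => (x : E ι) i, by fun_prop⟩

@[simp] theorem cx_apply (i : ι) (x : Sph ι) : cx i x = (x : E ι) i := rfl

variable (ι) in
/-- polynomial functions of degree at most `k` -/
def Fk : ℕ → Submodule ℝ C(Sph ι, Bil (E ι))
  | 0 => LinearMap.range cst
  | k + 1 => Fk k ⊔ ⨆ i, (Fk k).map (mulF (cx i))

theorem Fk_le (k : ℕ) : Fk ι k ≤ Fk ι (k + 1) := le_sup_left

theorem Fk_mono : Monotone (Fk ι) := monotone_nat_of_le_succ Fk_le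

theorem mul_mem (k : ℕ) (i : ι) {f : C(Sph ι, Bil (E ι))} (hf : f ∈ Fk ι k) :
    mulF (cx i) f ∈ Fk ι (k + 1) :=
  (le_sup_right : _ ≤ Fk ι (k + 1)) (Submodule.mem_iSup_of_mem i ⟨f, hf, rfl⟩)

theorem Fk_fin (k : ℕ) : FiniteDimensional ℝ (Fk ι k) := by
  induction k with
  | zero => exact inferInstanceAs (FiniteDimensional ℝ (LinearMap.range cst))
  | succ k ih =>
    have : ∀ i, FiniteDimensional ℝ ((Fk ι k).map (mulF (cx i))) := fun i => inferInstance
    exact Submodule.finiteDimensional_sup _ _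

/-- restrictions of smooth functions -/
def Sm : Submodule ℝ C(Sph ι, Bil (E ι)) where
  carrier := {f | ∃ g : E ι → Bil (E ι), ContDiff ℝ ∞ g ∧ ∀ x : Sph ι, f x = g x}
  add_mem' := by
    rintro f f' ⟨g, hg, h⟩ ⟨g', hg', h'⟩
    exact ⟨fun x => g x + g' x, hg.add hg', fun x => by rw [ContinuousMap.add_apply, h, h']⟩
  zero_mem' := ⟨fun _ => 0, contDiff_const, fun _ => rfl⟩
  smul_mem' := by
    rintro c f ⟨g, hg, h⟩
    exact ⟨fun x => c • g x, hg.const_smul c, fun x => by
      rw [ContinuousMap.smul_apply, h]⟩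

theorem Fk_smooth (k : ℕ) : Fk ι k ≤ Sm := by
  induction k with
  | zero =>
    rintro _ ⟨b, rfl⟩
    exact ⟨fun _ => b, contDiff_const, fun _ => rfl⟩
  | succ k ih =>
    refine sup_le ih (iSup_le fun i => ?_)
    rintro _ ⟨f, hf, rfl⟩
    obtain ⟨g, hg, h⟩ := ih hf
    refine ⟨fun x => x i • g x, ?_, fun x => ?_⟩
    · have : ContDiff ℝ ∞ fun x : E ι => x i := by fun_prop
      exact this.smul hg
    · rw [mulF_apply, cx_apply, h]

theorem Fk_inv (J : Gam ι) (s : ℝ) (k : ℕ) : Fk ι k ≤ (Fk ι k).comap (act J s).toLinearMap := by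
  induction k with
  | zero =>
    rintro _ ⟨b, rfl⟩
    refine ⟨cj (rot J.1 s) b, ?_⟩
    ext x v w
    rfl
  | succ k ih =>
    refine sup_le (ih.trans (Submodule.comap_mono (Fk_le k))) (iSup_le fun i => ?_)
    rintro _ ⟨f, hf, rfl⟩
    have h1 : act J s f ∈ Fk ι k := ih hf
    have h2 : act J s (mulF (cx i) f) = ∑ j, (rot J.1 s (eb j)) i • mulF (cx j) (act J s f) := by
      refine ContinuousMap.ext fun x => ?_
      rw [ContinuousMap.sum_apply]
      simp only [ContinuousMap.smul_apply, mulF_apply, cx_apply, smul_smul]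
      rw [← Finset.sum_smul, act_apply, mulF_apply, cj_smul, cx_apply, coe_rotS, act_apply,
        coord_apply]
      congr 1
      exact Finset.sum_congr rfl fun j _ => mul_comm _ _
    show act J s (mulF (cx i) f) ∈ Fk ι (k + 1)
    rw [h2]
    exact Submodule.sum_mem _ fun j _ => Submodule.smul_mem _ _ (mul_mem k j h1)

theorem coe_iSup_Fk : ((⨆ k, Fk ι k : Submodule ℝ C(Sph ι, Bil (E ι))) :
    Set C(Sph ι, Bil (E ι))) = ⋃ k, (Fk ι k : Set C(Sph ι, Bil (E ι))) :=
  Submodule.coe_iSup_of_directed _ Fk_mono.directed_le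

theorem mulF_mem {p : C(Sph ι, ℝ)} (hp : p ∈ Algebra.adjoin ℝ (range (cx : ι → C(Sph ι, ℝ))))
    {f : C(Sph ι, Bil (E ι))} (hf : f ∈ ⨆ k, Fk ι k) : mulF p f ∈ ⨆ k, Fk ι k := by
  induction hp using Algebra.adjoin_induction generalizing f with
  | mem p hp =>
    obtain ⟨i, rfl⟩ := hp
    rw [← SetLike.mem_coe, coe_iSup_Fk, mem_iUnion] at hf ⊢
    obtain ⟨k, hk⟩ := hf
    exact ⟨k + 1, mul_mem k i hk⟩
  | algebraMap r =>
    have : mulF (algebraMap ℝ C(Sph ι, ℝ) r) f = r • f := by ext x v w; rfl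
    rw [this]
    exact Submodule.smul_mem _ _ hf
  | add p q _ _ h1 h2 =>
    have : mulF (p + q) f = mulF p f + mulF q f := by ext x v w; simp [add_mul]
    rw [this]
    exact Submodule.add_mem _ (h1 hf) (h2 hf)
  | mul p q _ _ h1 h2 =>
    have : mulF (p * q) f = mulF p (mulF q f) := by ext x v w; simp [mul_assoc]
    rw [this]
    exact h1 (h2 hf)

theorem sep : (Algebra.adjoin ℝ (range (cx : ι → C(Sph ι, ℝ)))).SeparatesPoints := by
  intro x y hxy
  have : ∃ i, (x : E ι) i ≠ (y : E ι) i := by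
    by_contra h
    push Not at h
    apply hxy
    apply Subtype.ext
    ext i
    exact h i
  obtain ⟨i, hi⟩ := this
  exact ⟨cx i, ⟨cx i, Algebra.subset_adjoin ⟨i, rfl⟩, rfl⟩, hi⟩

/-- multiplication of a constant form by a function -/
def mulC (b : Bil (E ι)) : C(Sph ι, ℝ) →L[ℝ] C(Sph ι, Bil (E ι)) :=
  LinearMap.mkContinuous
    { toFun := fun p => mulF p (cst b)
      map_add' := fun p q => by ext x v w; simp [add_mul]
      map_smul' := fun c p => by ext x v w; simp [mul_assoc] } ‖b‖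
    (fun p => (ContinuousMap.norm_le _ (by positivity)).2 fun x => by
      show ‖p x • b‖ ≤ _
      rw [norm_smul, mul_comm]
      exact mul_le_mul_of_nonneg_left (p.norm_coe_le_norm x) (norm_nonneg _))

theorem mulC_mem (b : Bil (E ι)) (p : C(Sph ι, ℝ)) :
    mulC b p ∈ closure (⋃ k, (Fk ι k : Set C(Sph ι, Bil (E ι)))) := by
  have h1 : p ∈ closure (Algebra.adjoin ℝ (range (cx : ι → C(Sph ι, ℝ))) : Set C(Sph ι, ℝ)) := by
    have h2 := ContinuousMap.subalgebra_topologicalClosure_eq_top_of_separatesPoints _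
      (sep (ι := ι))
    have h3 : p ∈ (Algebra.adjoin ℝ (range (cx : ι → C(Sph ι, ℝ)))).topologicalClosure := by
      rw [h2]; trivial
    exact h3
  refine map_mem_closure (mulC b).continuous h1 fun q hq => ?_
  rw [← coe_iSup_Fk]
  refine mulF_mem hq ?_
  exact Submodule.mem_iSup_of_mem 0 ⟨b, rfl⟩

theorem Fk_dense : Dense (⋃ k, (Fk ι k : Set C(Sph ι, Bil (E ι)))) := by
  intro f
  rw [← coe_iSup_Fk]
  set B := Module.finBasis ℝ (Bil (E ι)) with hB
  have hc : ∀ j, Continuous fun x : Sph ι => B.coord j (f x) := fun j =>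
    ((B.coord j).continuous_of_finiteDimensional).comp f.continuous
  have h : f = ∑ j, mulC (B j) ⟨fun x => B.coord j (f x), hc j⟩ := by
    refine ContinuousMap.ext fun x => ?_
    rw [ContinuousMap.sum_apply]
    exact (B.sum_repr (f x)).symm
  rw [h]
  refine Submodule.sum_mem (⨆ k, Fk ι k).topologicalClosure fun j _ => ?_
  have := mulC_mem (B j) ⟨fun x => B.coord j (f x), hc j⟩
  rw [← coe_iSup_Fk] at this
  exact this

/-- the basis rotations as elements of `Gam` -/
def JJ (a : ι × ι) : Gam ι := ⟨Jst a, Jst_skew a, Jst_norm a⟩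

theorem c_bound (J : Gam ι) (a : ι × ι) : |(J.1 (eb a.2)) a.1 / √2| ≤ 1 := by
  have h1 : |(J.1 (eb a.2)) a.1| ≤ 1 := by
    calc |(J.1 (eb a.2)) a.1| = ‖(J.1 (eb a.2)) a.1‖ := rfl
      _ ≤ ‖J.1 (eb a.2)‖ := PiLp.norm_apply_le _ _
      _ ≤ ‖J.1‖ * ‖(eb a.2 : E ι)‖ := J.1.le_opNorm _
      _ ≤ 1 * 1 := by rw [norm_eb]; exact mul_le_mul_of_nonneg_right J.2.2 zero_le_one
      _ = 1 := one_mul _
  have h2 : 1 ≤ √(2:ℝ) := by rw [Real.one_le_sqrt]; norm_num
  rw [abs_div, abs_of_nonneg (Real.sqrt_nonneg 2), div_le_one (by positivity)]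
  linarith

theorem deriv_act (J : Gam ι) {g : E ι → Bil (E ι)} (hg : ContDiff ℝ ∞ g) :
    deriv (fun s => act J s (res g hg.continuous)) 0 =
      res (lieX J.1 g) (contDiff_lieX J.1 hg).continuous := (hasDerivAt_act J hg).deriv

theorem eq_res {k : ℕ} {f : C(Sph ι, Bil (E ι))} (hf : f ∈ Fk ι k) :
    ∃ (g : E ι → Bil (E ι)) (hg : ContDiff ℝ ∞ g), f = res g hg.continuous := by
  obtain ⟨g, hg, h⟩ := Fk_smooth k hf
  exact ⟨g, hg, ContinuousMap.ext h⟩

variable (ι) in
/-- the rotation system -/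
def sys : RotSys C(Sph ι, Bil (E ι)) (Gam ι) (ι × ι) where
  T := act
  J := JJ
  c := fun J a => (J.1 (eb a.2)) a.1 / √2
  F := Fk ι
  T_zero := act_zero
  T_add := act_add
  norm_T := norm_act
  cont_T := continuous_act'
  c_le := c_bound
  F_mono := Fk_mono
  F_fin := Fk_fin
  F_inv := fun k g s f hf => Fk_inv g s k hf
  F_dense := Fk_dense
  X_lin := by
    intro k f hf J
    obtain ⟨g, hg, rfl⟩ := eq_res hf
    simp only [deriv_act _ hg]
    refine ContinuousMap.ext fun x => ?_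
    rw [ContinuousMap.sum_apply, res_apply]
    conv_lhs => rw [skew_decomp J.2.1]
    rw [lieX_sum]
    rfl
  casimir := by
    intro k f hf b
    obtain ⟨g, hg, rfl⟩ := eq_res hf
    simp only [deriv_act _ hg, deriv_act _ (contDiff_lieX _ hg),
      deriv_act _ (contDiff_lieX _ (contDiff_lieX _ hg))]
    have hs : ContDiff ℝ ∞ (fun y => ∑ a : ι × ι, (1:ℝ) • lieX (Jst a) (lieX (Jst a) g) y) :=
      ContDiff.sum fun a _ => (contDiff_lieX _ (contDiff_lieX _ hg)).const_smul _
    have h1 : ∑ a : ι × ι, res (lieX (JJ a).1 (lieX (JJ a).1 g))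
        (contDiff_lieX _ (contDiff_lieX _ hg)).continuous = res _ hs.continuous := by
      refine ContinuousMap.ext fun x => ?_
      rw [ContinuousMap.sum_apply, res_apply]
      simp only [one_smul]
      rfl
    rw [h1, deriv_act _ hs]
    refine ContinuousMap.ext fun x => ?_
    rw [ContinuousMap.sum_apply, res_apply]
    exact casimir_fun b hg x

theorem rotSys : RotSysStatement := by
  intro ι _ _
  refine ⟨sys ι, ?_, fun _ => rfl, fun _ _ => rfl, fun k f hf => Fk_smooth k hf⟩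
  intro J s f x y hy
  have : rotS J s x = y := Subtype.ext hy.symm
  rw [cj_eq, ← this]
  rfl

end Pool.Agent.RF.H85
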